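import Pool.Agent.K6.H61.ALG.Defs
import Pool.Agent.K6.H3.MW.Fusion
import Pool.Agent.TH678.WP.Down
import Pool.Agent.H620R2.Gauge2.Trans
import Pool.Agent.TH678.RS.Defs

/-! An oracle `A` which is as powerful as an extension of it -/

set_option autoImplicit false

namespace Pool.Agent.K6.H61.ALG

open MvPolynomial Pool.Agent.NPC Pool.Agent.H620R2.Gauge Pool.Agent.TH678.GC
  Pool.Agent.TH678.SQ Pool.Agent.H622R2 Pool.Agent.K6.H3.MW
open Pool.Agent.TH678.WP (poly_replicate InFPT)

/-- the multilinear extension -/
noncomputable def ext {ι : Type} (F : ι → Type) [∀ i, Field (F i)] (A : Oracle) : Fam F :=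
  fun p => ml fun b => bt (F p.1) (A (List.ofFn b))

variable {ι : Type} {F : ι → Type} [∀ i, Field (F i)]

theorem isExt_ext (A : Oracle) : IsExt A (ext F A) := fun i m =>
  ⟨fun j => (degreeOf_ml _ j).trans (by norm_num), fun b => eval_ml _ b⟩

theorem ext_congr {A B : Oracle} {i : ι} {m : ℕ} (h : ∀ u : List Bool, u.length = m → A u = B u) :
    ext F A (i, m) = ext F B (i, m) := by
  show ml (fun b : Fin m → Bool => bt (F i) (A (List.ofFn b))) =
    ml (fun b : Fin m → Bool => bt (F i) (B (List.ofFn b)))
  congr 1
  funext b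
  rw [h _ List.length_ofFn]

/-- the oracle `A`, the oracle `E` and the multilinear extension of `A` -/
noncomputable def fu (E : Oracle) (dec : List Bool → Quest F) (A : Oracle) : Oracle :=
  join (join A E) (ora dec (ext F A))

theorem ora_congr (dec : List Bool → Quest F) {P P' : Fam F} {q : List Bool}
    (h : P ((dec q).i, (dec q).m) = P' ((dec q).i, (dec q).m)) : ora dec P q = ora dec P' q := by
  unfold ora
  rw [h]

theorem join_nil (A E : Oracle) : join A E [] = false := rfl

theorem join_true (A E : Oracle) (q : List Bool) : join A E (true :: q) = E q := rfl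

theorem join_false (A E : Oracle) (q : List Bool) : join A E (false :: q) = A q := rfl

theorem fu_congr (E : Oracle) (dec : List Bool → Quest F) (hdec : ∀ q, (dec q).m ≤ q.length)
    {A B : Oracle} {n : ℕ} (h : ∀ u : List Bool, u.length < n → A u = B u) :
    ∀ q : List Bool, q.length < n → fu E dec A q = fu E dec B q := by
  intro q hq
  unfold fu
  rcases q with _ | ⟨c, q⟩
  · rw [join_nil, join_nil]
  rw [List.length_cons] at hq
  cases c with
  | true =>
    rw [join_true, join_true]
    have h1 := hdec q
    exact ora_congr dec (ext_congr fun u hu => h u (by omega))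
  | false =>
    rw [join_false, join_false]
    rcases q with _ | ⟨c, q⟩
    · rw [join_nil, join_nil]
    rw [List.length_cons] at hq
    cases c with
    | true => rw [join_true, join_true]
    | false =>
      rw [join_false, join_false]
      exact h q (by omega)

/-- the question of the algorithm `V` on input `w` -/
def padq (b : Polynomial ℕ) (j : ℕ) (w : List Bool) : List Bool :=
  true :: pairBits (List.replicate j true)
    (pairBits (List.replicate (b.eval w.length) true) w)

theorem poly_padq (b : Polynomial ℕ) (j : ℕ) : Poly (padq b j) :=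
  NPC.Poly.cons (NPC.Poly.const true) (poly_pairBits (NPC.Poly.const _)
    (poly_pairBits (poly_replicate ((UPoly.length NPC.Poly.id).eval b) true) NPC.Poly.id))

/-- the rule for the oracle -/
def Rule1 (E : Oracle) (dec : List Bool → Quest F) (R : ℕ → Oracle → Set (List Bool))
    (z : List Bool) (B : Oracle) : Prop :=
  (unpair (unpair z.tail).2).2 ∈ R (unpair z.tail).1.length (fu E dec B)

theorem rule1_iff (E : Oracle) (dec : List Bool → Quest F) (R : ℕ → Oracle → Set (List Bool))
    (b : Polynomial ℕ) (j : ℕ) (w : List Bool) (B : Oracle) :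
    Rule1 E dec R (padq b j w) B ↔ w ∈ R j (fu E dec B) := by
  have h1 : unpair (padq b j w).tail = (List.replicate j true,
      pairBits (List.replicate (b.eval w.length) true) w) := by
    unfold padq
    rw [List.tail_cons, unpair_pairBits]
  unfold Rule1
  rw [h1]
  dsimp only
  rw [unpair_pairBits, List.length_replicate]

open Classical in
/-- All sets, in a given sequence, which depend on the oracle only at strings of polynomial length
can be decided with one question. -/
theorem exists_coll (E : Oracle) (dec : List Bool → Quest F) (hdec : ∀ q, (dec q).m ≤ q.length)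
    (R : ℕ → Oracle → Set (List Bool)) (b : ℕ → Polynomial ℕ)
    (hR : ∀ (j : ℕ) (O O' : Oracle) (w : List Bool),
      (∀ q : List Bool, q.length ≤ (b j).eval w.length → O q = O' q) →
      (w ∈ R j O ↔ w ∈ R j O')) :
    ∃ A : Oracle, ∀ j w, A (padq (b j) j w) = true ↔ w ∈ R j (fu E dec A) := by
  obtain ⟨A, hA⟩ := exists_self fun z B => decide (Rule1 E dec R z B)
  refine ⟨A, fun j w => ?_⟩
  rw [hA, decide_eq_true_eq, rule1_iff]
  have hnl : (b j).eval w.length < (padq (b j) j w).length := by
    unfold padq
    rw [List.length_cons, length_pairBits, length_pairBits, List.length_replicate,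
      List.length_replicate]
    omega
  refine hR j _ _ w fun q hq => fu_congr E dec hdec (n := (padq (b j) j w).length)
    (fun u hu => ?_) q (by omega)
  unfold cut
  rw [if_pos hu]

/-- the acceptance by the reduction `N` to the halting problem -/
def Acc (N : Alg) (e : ℕ) (O : Oracle) : Set (List Bool) :=
  {w | ∃ (y : List Bool) (k' : ℕ), N.out O w = some (pairBits (List.replicate k' true) y) ∧
    (y, k') ∈ kHaltS e O}

theorem acc_bound (N : Alg) (e : ℕ) : ∃ b : Polynomial ℕ, ∀ (O O' : Oracle) (w : List Bool),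
    (∀ q : List Bool, q.length ≤ b.eval w.length → O q = O' q) →
    (w ∈ Acc N e O ↔ w ∈ Acc N e O') := by
  obtain ⟨qb, hqb⟩ := N.out_local
  obtain ⟨lb, hlb⟩ := N.out_length
  refine ⟨qb + Polynomial.C (e + 2) * lb * (lb + 1), fun O O' w h => ?_⟩
  simp only [Polynomial.eval_add, Polynomial.eval_mul, Polynomial.eval_C,
    Polynomial.eval_one] at h
  have h1 : N.out O w = N.out O' w := by
    obtain ⟨Q, _, hQ2, hQ3⟩ := hqb O' w
    exact hQ3 O fun q hq => h q ((hQ2 q hq).trans (Nat.le_add_right _ _))
  unfold Acc
  show (∃ (y : List Bool) (k' : ℕ), N.out O w = some (pairBits (List.replicate k' true) y) ∧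
    (y, k') ∈ kHaltS e O) ↔ (∃ (y : List Bool) (k' : ℕ),
      N.out O' w = some (pairBits (List.replicate k' true) y) ∧ (y, k') ∈ kHaltS e O')
  rw [h1]
  refine exists_congr fun y => exists_congr fun k' => and_congr_right fun h2 => ?_
  have h3 := hlb O' w _ h2
  rw [length_pairBits, List.length_replicate] at h3
  refine kHaltS_short e O O' y k' fun q hq => h q (hq.trans ?_)
  dsimp only
  have h4 : Nat.log 2 y.length ≤ y.length := Nat.log_le_self 2 _
  have h5 : (e + 2) * k' * (Nat.log 2 y.length + 1) ≤
      (e + 2) * lb.eval w.length * (lb.eval w.length + 1) :=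
    Nat.mul_le_mul (Nat.mul_le_mul_left _ (by omega)) (by omega)
  omega

theorem isP_single (A : Oracle) (b : Polynomial ℕ) (j : ℕ) :
    IsFP A (fun w => [A (padq b j w)]) :=
  IsFP.tt (A := A) (Q := fun w => [padq b j w]) (H := fun p => p.2)
    (NPC.Poly.cons (poly_padq b j) (NPC.Poly.const [])) (NPC.Poly.snd NPC.Poly.id)

theorem coll (E : Oracle) (dec : List Bool → Quest F) (hdec : ∀ q, (dec q).m ≤ q.length) :
    ∃ x : Pair F, ∀ Q, InW1 (x.full E dec) Q → InFPT x.A Q ∧ Pool.Agent.TH678.RS.InM1 x.A Q := by
  have hcn := CC.poly_countable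
  have hne : Nonempty Alg := by
    obtain ⟨M, _⟩ := IsFP.of_poly (A := fun _ => false) (F := fun x : List Bool => x) NPC.Poly.id
    exact ⟨M⟩
  obtain ⟨f, hf⟩ := exists_surjective_nat (Alg × ℕ)
  choose b hb using acc_bound
  obtain ⟨A, hA⟩ := exists_coll E dec hdec (fun j => Acc (f j).1 (f j).2)
    (fun j => b (f j).1 (f j).2) (fun j => hb (f j).1 (f j).2)
  refine ⟨⟨(A, ext F A), isExt_ext A⟩, fun Q hQ => ?_⟩
  obtain ⟨e, π, g, R, hπ, hg, ⟨N, hN⟩, hQ⟩ := hQ
  obtain ⟨j, hj⟩ := hf (N, e)
  have hfull : Pair.full (⟨(A, ext F A), isExt_ext A⟩ : Pair F) E dec = fu E dec A := rfl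
  rw [hfull] at hN hQ
  have key : ∀ x k, (x, k) ∈ Q ↔ A (padq (b N e) j (pairBits (π k) x)) = true := by
    intro x k
    have h1 := hA j (pairBits (π k) x)
    rw [hj] at h1
    dsimp only at h1
    rw [h1]
    obtain ⟨y, k', _, h3, h4⟩ := hQ x k
    rw [h4]
    constructor
    · intro h5
      exact ⟨y, k', by rw [hN, h3], h5⟩
    · rintro ⟨y', k'', h5, h6⟩
      rw [hN, h3, Option.some.injEq] at h5
      have h7 := congrArg unpair h5
      rw [unpair_pairBits, unpair_pairBits, Prod.mk.injEq] at h7
      have h8 : k' = k'' := by simpa using congrArg List.length h7.1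
      rw [h7.2, h8]
      exact h6
  have hP : IsP A {w | A (padq (b N e) j w) = true} :=
    ⟨fun w => [A (padq (b N e) j w)], isP_single A _ j, fun w => by simp⟩
  refine ⟨⟨π, _, hπ, hP, key⟩, π, fun _ => 1, 1, fun w => [A (padq (b N e) j w)], {[true]}, hπ,
    Computable.const 1, isP_single A _ j, ?_, fun x k => ⟨?_, ?_⟩⟩
  · refine IsP.isNP ⟨fun z => z, IsFP.of_poly NPC.Poly.id, fun z => by simp⟩
  · rw [List.length_singleton, pow_one, one_mul]
    omega
  · rw [key]
    simp

end Pool.Agent.K6.H61.ALG
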