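import Mathlib.Algebra.MvPolynomial.Degrees
import Mathlib.Algebra.MvPolynomial.CommRing
import Mathlib.LinearAlgebra.FiniteDimensional.Lemmas
import Mathlib.LinearAlgebra.FiniteDimensional.Basic
import Mathlib.LinearAlgebra.Dimension.Constructions
import Mathlib.Algebra.Field.Basic

/-!
# Polynomials of degree at most two in each variable with prescribed values at the Boolean points

For every finite set `S` of points there is a set `W` of at most as many Boolean points such that
the values at all Boolean points outside `W` can be changed arbitrarily by a polynomial of degree at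
most two in each variable which vanishes on `S` and on `W`.
-/

set_option autoImplicit false

namespace Pool.Agent.K6.H61.ALG

open MvPolynomial Finset

/-- a bit as an element of the field -/
def bt (K : Type) [Field K] (b : Bool) : K := if b = true then 1 else 0

section
variable {K : Type} [Field K] {n : ℕ}

/-- the Boolean point `b` -/
def pt (K : Type) [Field K] {n : ℕ} (b : Fin n → Bool) : Fin n → K := fun j => bt K (b j)

/-- the multilinear polynomial which is one at the Boolean point `b` and zero at the others -/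
noncomputable def dl (K : Type) [Field K] {n : ℕ} (b : Fin n → Bool) : MvPolynomial (Fin n) K :=
  ∏ j, if b j = true then X j else 1 - X j

theorem degreeOf_dl (b : Fin n → Bool) (j : Fin n) : (dl K b).degreeOf j ≤ 1 := by
  classical
  unfold dl
  refine (degreeOf_prod_le j _ _).trans ?_
  have h : ∀ i : Fin n, degreeOf j ((if b i = true then X i else 1 - X i :
      MvPolynomial (Fin n) K)) ≤ if i = j then 1 else 0 := by
    intro i
    have h1 : degreeOf j (X i : MvPolynomial (Fin n) K) ≤ if i = j then 1 else 0 := by
      rw [degreeOf_X]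
      split_ifs with h2 h3 h3 <;> simp_all
    split_ifs with h2 h3
    · simpa [h3] using h1
    · simpa [h3] using h1
    · rw [sub_eq_add_neg]
      refine (degreeOf_add_le j _ _).trans ?_
      rw [degreeOf_one, degreeOf_neg]
      simpa [*] using h1
    · rw [sub_eq_add_neg]
      refine (degreeOf_add_le j _ _).trans ?_
      rw [degreeOf_one, degreeOf_neg]
      simpa [*] using h1
  refine (Finset.sum_le_sum fun i _ => h i).trans ?_
  simp

theorem eval_dl (b c : Fin n → Bool) : eval (pt K c) (dl K b) = if c = b then 1 else 0 := by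
  unfold dl
  rw [map_prod]
  split_ifs with h
  · subst h
    refine Finset.prod_eq_one fun j _ => ?_
    unfold pt bt
    by_cases h1 : c j = true <;> simp [h1]
  · obtain ⟨j, hj⟩ := Function.ne_iff.1 h
    refine Finset.prod_eq_zero (Finset.mem_univ j) ?_
    unfold pt bt
    by_cases h1 : c j = true <;> by_cases h2 : b j = true <;> simp_all

/-- the multilinear polynomial with the given values at the Boolean points -/
noncomputable def ml (a : (Fin n → Bool) → K) : MvPolynomial (Fin n) K := ∑ b, C (a b) * dl K b

theorem degreeOf_ml (a : (Fin n → Bool) → K) (j : Fin n) : (ml a).degreeOf j ≤ 1 := by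
  unfold ml
  refine (degreeOf_sum_le j _ _).trans (Finset.sup_le fun b _ => ?_)
  exact (degreeOf_C_mul_le _ _ _).trans (degreeOf_dl b j)

theorem eval_ml (a : (Fin n → Bool) → K) (c : Fin n → Bool) : eval (pt K c) (ml a) = a c := by
  unfold ml
  rw [map_sum]
  rw [Finset.sum_eq_single c]
  · rw [map_mul, eval_dl, eval_C, if_pos rfl, mul_one]
  · intro b _ hb
    rw [map_mul, eval_dl, if_neg (fun h => hb h.symm), mul_zero]
  · intro h
    exact absurd (Finset.mem_univ c) h

/-- evaluation of the multilinear extension at a point -/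
theorem eval_ml_add (a a' : (Fin n → Bool) → K) (s : Fin n → K) :
    eval s (ml (a + a')) = eval s (ml a) + eval s (ml a') := by
  unfold ml
  rw [map_sum, map_sum, map_sum, ← Finset.sum_add_distrib]
  refine Finset.sum_congr rfl fun b _ => ?_
  rw [map_mul, map_mul, map_mul, eval_C, eval_C, eval_C, Pi.add_apply, add_mul]

theorem eval_ml_smul (r : K) (a : (Fin n → Bool) → K) (s : Fin n → K) :
    eval s (ml (r • a)) = r * eval s (ml a) := by
  unfold ml
  rw [map_sum, map_sum, Finset.mul_sum]
  refine Finset.sum_congr rfl fun b _ => ?_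
  rw [map_mul, map_mul, eval_C, eval_C, Pi.smul_apply, smul_eq_mul, mul_assoc]

open Classical in
theorem exists_spoiled (S : Finset (Fin n → K)) : ∃ W : Finset (Fin n → Bool), W.card ≤ S.card ∧
    ∀ b, b ∉ W → ∃ a : (Fin n → Bool) → K, (∀ s ∈ S, eval s (ml a) = 0) ∧ a b ≠ 0 := by
  set W : Finset (Fin n → Bool) := univ.filter fun b =>
    ∀ a : (Fin n → Bool) → K, (∀ s ∈ S, eval s (ml a) = 0) → a b = 0 with hW
  refine ⟨W, ?_, fun b hb => ?_⟩
  · by_contra hcon
    push Not at hcon
    set ex : (W → K) → ((Fin n → Bool) → K) := fun a b => if h : b ∈ W then a ⟨b, h⟩ else 0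
      with hex
    have hadd : ∀ a a', ex (a + a') = ex a + ex a' := by
      intro a a'
      funext b
      simp only [hex, Pi.add_apply]
      split_ifs <;> simp
    have hsm : ∀ (r : K) a, ex (r • a) = r • ex a := by
      intro r a
      funext b
      simp only [hex, Pi.smul_apply]
      split_ifs <;> simp
    let φ : (W → K) →ₗ[K] (S → K) :=
      { toFun := fun a s => eval s.1 (ml (ex a))
        map_add' := fun a a' => by
          funext s
          rw [hadd, eval_ml_add]
          rfl
        map_smul' := fun r a => by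
          funext s
          rw [hsm, eval_ml_smul]
          rfl }
    have h1 : Module.finrank K (S → K) < Module.finrank K (W → K) := by
      rw [Module.finrank_fintype_fun_eq_card, Module.finrank_fintype_fun_eq_card,
        Fintype.card_coe, Fintype.card_coe]
      exact hcon
    obtain ⟨a, ha1, ha2⟩ := (Submodule.ne_bot_iff _).1 (φ.ker_ne_bot_of_finrank_lt h1)
    refine ha2 ?_
    funext w
    have h2 : ∀ s ∈ S, eval s (ml (ex a)) = 0 := by
      intro s hs
      have h3 : φ a = 0 := ha1
      exact congrFun h3 ⟨s, hs⟩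
    have h4 := (Finset.mem_filter.1 w.2).2 (ex a) h2
    have h5 : ex a w.1 = a w := by
      simp only [hex]
      rw [dif_pos w.2]
    rw [← h5, h4]
    rfl
  · rw [hW, Finset.mem_filter] at hb
    push Not at hb
    obtain ⟨a, h1, h2⟩ := hb (Finset.mem_univ b)
    exact ⟨a, h1, h2⟩

/-- The correction polynomials. -/
theorem exists_corr (S : Finset (Fin n → K)) : ∃ (W : Finset (Fin n → Bool))
    (R : ((Fin n → Bool) → K) → MvPolynomial (Fin n) K), W.card ≤ S.card ∧ R 0 = 0 ∧
    ∀ a : (Fin n → Bool) → K, (∀ j, (R a).degreeOf j ≤ 2) ∧ (∀ s ∈ S, eval s (R a) = 0) ∧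
      ((∀ b ∈ W, a b = 0) → ∀ b, eval (pt K b) (R a) = a b) := by
  classical
  obtain ⟨W, hW1, hW2⟩ := exists_spoiled S
  choose f hf1 hf2 using hW2
  obtain ⟨g, hgn, hgp⟩ : ∃ g : (Fin n → Bool) → MvPolynomial (Fin n) K, (∀ b ∈ W, g b = 0) ∧
      ∀ b (h : b ∉ W), g b = C (f b h b)⁻¹ * (ml (f b h) * dl K b) :=
    ⟨fun b => if h : b ∈ W then 0 else C (f b h b)⁻¹ * (ml (f b h) * dl K b),
      fun b h => dif_pos h, fun b h => dif_neg h⟩
  have hg1 : ∀ b j, (g b).degreeOf j ≤ 2 := by
    intro b j
    by_cases h : b ∈ W
    · rw [hgn b h, degreeOf_zero]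
      omega
    · rw [hgp b h]
      refine (degreeOf_C_mul_le _ _ _).trans ((degreeOf_mul_le _ _ _).trans ?_)
      have h1 := degreeOf_ml (f b h) j
      have h2 := degreeOf_dl (K := K) b j
      omega
  have hg2 : ∀ b, ∀ s ∈ S, eval s (g b) = 0 := by
    intro b s hs
    by_cases h : b ∈ W
    · rw [hgn b h, map_zero]
    · rw [hgp b h, map_mul, map_mul, hf1 b h s hs, zero_mul, mul_zero]
  have hg3 : ∀ b, b ∉ W → ∀ c, eval (pt K c) (g b) = if c = b then 1 else 0 := by
    intro b hb c
    rw [hgp b hb, map_mul, map_mul, eval_C, eval_ml, eval_dl]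
    split_ifs with h
    · subst h
      rw [mul_one, inv_mul_cancel₀ (hf2 c hb)]
    · rw [mul_zero, mul_zero]
  refine ⟨W, fun a => ∑ b, C (a b) * g b, hW1, ?_, fun a => ⟨fun j => ?_, fun s hs => ?_,
    fun ha b => ?_⟩⟩
  · simp
  · refine (degreeOf_sum_le j _ _).trans (Finset.sup_le fun b _ => ?_)
    exact (degreeOf_C_mul_le _ _ _).trans (hg1 b j)
  · rw [map_sum]
    refine Finset.sum_eq_zero fun b _ => ?_
    rw [map_mul, hg2 b s hs, mul_zero]
  · rw [map_sum, Finset.sum_eq_single b]
    · by_cases hb : b ∈ W
      · rw [map_mul, eval_C, ha b hb, zero_mul]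
      · rw [map_mul, eval_C, hg3 b hb b, if_pos rfl, mul_one]
    · intro c _ hc
      by_cases hcW : c ∈ W
      · rw [map_mul, eval_C, ha c hcW, zero_mul]
      · rw [map_mul, hg3 c hcW b, if_neg (fun h => hc h.symm), mul_zero]
    · intro h
      exact absurd (Finset.mem_univ b) h

end

end Pool.Agent.K6.H61.ALG
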