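import Pool.Agent.TH678.GC.Defs
import Pool.Agent.K6.H61.ALG.Lin

/-!
# Oracles with extensions of low degree (algebraic oracles)

Let `F i` be a family of fields. An extension of an oracle `A` consists of a polynomial `P (i, m)` in
`m` variables over `F i`, of degree at most two in each variable, for all `i` and `m`, whose value at
every Boolean point `b` is the bit `A b`. The algorithms may ask questions about the values of these
polynomials at arbitrary points: whether the value is in the set `T`. How the questions are written
as bit strings is given by an arbitrary function `dec`.
-/

set_option autoImplicit false

namespace Pool.Agent.K6.H61.ALG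

open MvPolynomial Pool.Agent.H620R2.Gauge Pool.Agent.TH678.GC

/-- A family of polynomials: `P (i, m)` is a polynomial in `m` variables over the field `F i`. -/
def Fam {ι : Type} (F : ι → Type) [∀ i, Field (F i)] : Type :=
  (p : ι × ℕ) → MvPolynomial (Fin p.2) (F p.1)

section
variable {ι : Type} {F : ι → Type} [∀ i, Field (F i)]

/-- The family `P` is an extension, of degree at most two in each variable, of the oracle `A`: the
values at the Boolean points are the values of `A`. (Here `pt K b` is the point in `K ^ m` with the
coordinates `b j`, and `bt K c` is the bit `c`, as an element of `K`.) -/
def IsExt (A : Oracle) (P : Fam F) : Prop :=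
  ∀ (i : ι) (m : ℕ), (∀ j, (P (i, m)).degreeOf j ≤ 2) ∧
    ∀ b : Fin m → Bool, eval (pt (F i) b) (P (i, m)) = bt (F i) (A (List.ofFn b))

end

/-- A question about an extension: is the value of the polynomial number `(i, m)` at the point `v`
in the set `T`? -/
structure Quest {ι : Type} (F : ι → Type) where
  /-- the number of the field -/
  i : ι
  /-- the number of the variables -/
  m : ℕ
  /-- the point -/
  v : Fin m → F i
  /-- the set -/
  T : Set (F i)

section
variable {ι : Type} {F : ι → Type} [∀ i, Field (F i)]

open Classical in
/-- The oracle which answers the questions about the extension `P`. The question number `q` is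
`dec q`. -/
noncomputable def ora (dec : List Bool → Quest F) (P : Fam F) : Oracle := fun q =>
  decide (eval (dec q).v (P ((dec q).i, (dec q).m)) ∈ (dec q).T)

end

/-- The space of all pairs of an oracle and an extension of it. -/
def Pair {ι : Type} (F : ι → Type) [∀ i, Field (F i)] : Type :=
  {x : Oracle × Fam F // IsExt x.1 x.2}

section
variable {ι : Type} {F : ι → Type} [∀ i, Field (F i)]

/-- the oracle of the pair -/
def Pair.A (x : Pair F) : Oracle := x.1.1

/-- the extension -/
def Pair.P (x : Pair F) : Fam F := x.1.2

/-- Everything that the pair and the further oracle `E` tell: the questions beginning with
`false, false` are about `A`, those beginning with `false, true` about `E`, and those beginning with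
`true` about the extension. -/
noncomputable def Pair.full (x : Pair F) (E : Oracle) (dec : List Bool → Quest F) : Oracle :=
  join (join x.A E) (ora dec x.P)

/-- The product topology on the families (for the discrete topology on the sets of polynomials). -/
instance : TopologicalSpace (Fam F) :=
  @Pi.topologicalSpace _ _ fun _ => ⊥

/-- The topology on the space of the pairs: a sequence converges if every value of the oracle and
every polynomial of the extension is eventually constant. -/
instance : TopologicalSpace (Pair F) := instTopologicalSpaceSubtype

end

end Pool.Agent.K6.H61.ALG
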