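import Pool.Agent.K6.H61.ALG.One
import Pool.Agent.TH678.GC.Final
import Mathlib.Topology.Baire.Lemmas
import Mathlib.Topology.Baire.CompleteMetrizable
import Mathlib.Topology.Metrizable.CompletelyMetrizable

/-! No compressions relative to generic oracles with extensions -/

set_option autoImplicit false

namespace Pool.Agent.K6.H61.ALG

open MvPolynomial Pool.Agent.NPC Pool.Agent.H622R2 Pool.Agent.H620R2.Gauge
  Pool.Agent.H622R2.Exp Pool.Agent.TH678.ETH Pool.Agent.TH678.WP Pool.Agent.TH678.RW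
  Pool.Agent.TH678.SQ Pool.Agent.TH678.GC Pool.Agent.TH678.RS

variable {ι : Type} {F : ι → Type} [∀ i, Field (F i)]

theorem cont_A (u : List Bool) : Continuous fun x : Pair F => x.A u :=
  (continuous_apply u).comp (continuous_fst.comp continuous_subtype_val)

theorem cont_P (p : ι × ℕ) :
    @Continuous _ _ _ (⊥ : TopologicalSpace (MvPolynomial (Fin p.2) (F p.1)))
      fun x : Pair F => x.P p := by
  let _ : ∀ p : ι × ℕ, TopologicalSpace (MvPolynomial (Fin p.2) (F p.1)) := fun _ => ⊥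
  exact (continuous_apply p).comp (continuous_snd.comp continuous_subtype_val)

theorem isOpen_of_loc' {s : Set (Pair F)} (h : ∀ x ∈ s, ∃ (I : Finset (List Bool))
    (J : Finset (ι × ℕ)), ∀ y : Pair F, (∀ u ∈ I, y.A u = x.A u) → (∀ p ∈ J, y.P p = x.P p) →
    y ∈ s) : IsOpen s := by
  rw [isOpen_iff_forall_mem_open]
  intro x hx
  obtain ⟨I, J, hIJ⟩ := h x hx
  refine ⟨(⋂ u ∈ I, {y | y.A u = x.A u}) ∩ ⋂ p ∈ J, {y | y.P p = x.P p}, ?_, ?_, ?_⟩
  · rintro y ⟨h1, h2⟩
    simp only [Set.mem_iInter, Set.mem_ofPred_eq] at h1 h2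
    exact hIJ y h1 h2
  · refine (isOpen_biInter_finset fun u _ => ?_).inter (isOpen_biInter_finset fun p _ => ?_)
    · exact (isOpen_discrete {x.A u}).preimage (cont_A u)
    · let _ : TopologicalSpace (MvPolynomial (Fin p.2) (F p.1)) := ⊥
      have _ : DiscreteTopology (MvPolynomial (Fin p.2) (F p.1)) := ⟨rfl⟩
      exact (isOpen_discrete {x.P p}).preimage (cont_P p)
  · simp

theorem basis {U : Set (Pair F)} (hU : IsOpen U) {x : Pair F} (hx : x ∈ U) :
    ∃ (I : Finset (List Bool)) (J : Finset (ι × ℕ)), ∀ y : Pair F, (∀ u ∈ I, y.A u = x.A u) →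
      (∀ p ∈ J, y.P p = x.P p) → y ∈ U := by
  let _ : ∀ p : ι × ℕ, TopologicalSpace (MvPolynomial (Fin p.2) (F p.1)) := fun _ => ⊥
  obtain ⟨V, hV, rfl⟩ := isOpen_induced_iff.1 hU
  obtain ⟨V1, V2, h1, h2, h3, h4, h5⟩ := isOpen_prod_iff.1 hV x.1.1 x.1.2 hx
  obtain ⟨I, u, hu1, hu2⟩ := isOpen_pi_iff.1 h1 _ h3
  obtain ⟨J, v, hv1, hv2⟩ := isOpen_pi_iff.1 h2 _ h4
  refine ⟨I, J, fun y hy1 hy2 => h5 (Set.mk_mem_prod (hu2 fun z hz => ?_) (hv2 fun p hp => ?_))⟩
  · have h6 : y.1.1 z = x.1.1 z := hy1 z hz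
    rw [h6]
    exact (hu1 z hz).2
  · have h6 : y.1.2 p = x.1.2 p := hy2 p hp
    rw [h6]
    exact (hv1 p hp).2

theorem full_loc (E : Oracle) (dec : List Bool → Quest F) {x y : Pair F}
    {Q : Finset (List Bool)} (h1 : ∀ q ∈ Q, y.A q.tail.tail = x.A q.tail.tail)
    (h2 : ∀ q ∈ Q, y.P ((dec q.tail).i, (dec q.tail).m) = x.P ((dec q.tail).i, (dec q.tail).m)) :
    ∀ q ∈ Q, y.full E dec q = x.full E dec q := by
  intro q hq
  rcases q with _ | ⟨c, q⟩
  · rfl
  cases c with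
  | true =>
    have h3 := h2 _ hq
    show ora dec y.P q = ora dec x.P q
    unfold ora
    rw [List.tail_cons] at h3
    rw [h3]
  | false =>
    rcases q with _ | ⟨c, q⟩
    · rfl
    cases c with
    | true => rfl
    | false => exact h1 _ hq

open Classical in
theorem open_Long (E : Oracle) (dec : List Bool → Quest F) (N : Alg) (σ : List Bool) (H : ℕ)
    (y : List Bool) : IsOpen {x : Pair F | Long N σ H y (x.full E dec)} := by
  obtain ⟨qb, hqb⟩ := N.out_local
  refine isOpen_of_loc' fun x hx => ?_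
  obtain ⟨Q, _, _, hQ3⟩ := hqb (x.full E dec) (pairBits σ y)
  refine ⟨Q.image fun q => q.tail.tail, Q.image fun q => ((dec q.tail).i, (dec q.tail).m),
    fun x' h1 h2 ρ hρ => hx ρ ?_⟩
  rw [← hρ]
  exact (hQ3 _ (full_loc E dec (fun q hq => h1 _ (Finset.mem_image_of_mem _ hq))
    (fun q hq => h2 _ (Finset.mem_image.2 ⟨q, hq, rfl⟩)))).symm

theorem hitR_loc' {E A B : Oracle} {k l n : ℕ} {r : Fin k → Fin n → Fin l → Bool}
    (h : ∀ τ : Fin k → Fin n, A (cat (zr r τ)) = B (cat (zr r τ))) :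
    HitR (join A E) r ↔ HitR (join B E) r := by
  unfold HitR
  refine exists_congr fun τ => ?_
  show A (cat (zr r τ)) = true ↔ B (cat (zr r τ)) = true
  rw [h]

open Classical in
theorem open_Same (E : Oracle) (dec : List Bool → Quest F) (N : Alg) (σ : List Bool) (e m : ℕ)
    (f f' : Fin (2 ^ m) → Bool) :
    IsOpen {x : Pair F | Same N σ e m f f' (x.full E dec) (join x.A E)} := by
  obtain ⟨qb, hqb⟩ := N.out_local
  refine isOpen_of_loc' fun x hx => ?_
  obtain ⟨⟨ρ, h1, h2⟩, h3, h4⟩ := hx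
  obtain ⟨Q, _, _, hQ3⟩ := hqb (x.full E dec) (pairBits σ (Xq (rF e m (pe N + 1) f)))
  obtain ⟨Q', _, _, hQ3'⟩ := hqb (x.full E dec) (pairBits σ (Xq (rF e m (pe N + 1) f')))
  refine ⟨((Q ∪ Q').image fun q => q.tail.tail) ∪ (Finset.univ.image fun τ =>
      cat (zr (rF e m (pe N + 1) f) τ)) ∪ (Finset.univ.image fun τ =>
      cat (zr (rF e m (pe N + 1) f') τ)),
    (Q ∪ Q').image fun q => ((dec q.tail).i, (dec q.tail).m), fun x' g1 g2 => ?_⟩
  have hI : ∀ q ∈ Q ∪ Q', x'.full E dec q = x.full E dec q := full_loc E dec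
    (fun q hq => g1 _ (Finset.mem_union_left _ (Finset.mem_union_left _
      (Finset.mem_image_of_mem _ hq))))
    (fun q hq => g2 _ (Finset.mem_image.2 ⟨q, hq, rfl⟩))
  refine ⟨⟨ρ, ?_, ?_⟩, ?_, ?_⟩
  · rw [hQ3 _ fun q hq => hI q (Finset.mem_union_left _ hq)]
    exact h1
  · rw [hQ3' _ fun q hq => hI q (Finset.mem_union_right _ hq)]
    exact h2
  · exact (hitR_loc' fun τ => g1 _ (Finset.mem_union_left _ (Finset.mem_union_right _
      (Finset.mem_image_of_mem _ (Finset.mem_univ τ))))).2 h3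
  · exact fun h5 => h4 ((hitR_loc' fun τ => g1 _ (Finset.mem_union_right _
      (Finset.mem_image_of_mem _ (Finset.mem_univ τ)))).1 h5)

/-- the set of the pairs for which the requirement is satisfied -/
def Gj (E : Oracle) (dec : List Bool → Quest F) (e : ℕ) (j : Alg × List Bool × ℕ) :
    Set (Pair F) :=
  {x | (∃ y, Long j.1 j.2.1 j.2.2 y (x.full E dec)) ∨
    ∃ m f f', Same j.1 j.2.1 e m f f' (x.full E dec) (join x.A E)}

theorem open_Gj (E : Oracle) (dec : List Bool → Quest F) (e : ℕ) (j : Alg × List Bool × ℕ) :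
    IsOpen (Gj (F := F) E dec e j) := by
  have h1 : Gj (F := F) E dec e j = (⋃ y, {x | Long j.1 j.2.1 j.2.2 y (x.full E dec)}) ∪
      ⋃ m, ⋃ f, ⋃ f', {x | Same j.1 j.2.1 e m f f' (x.full E dec) (join x.A E)} := by
    ext x
    simp [Gj]
  rw [h1]
  exact (isOpen_iUnion fun y => open_Long E dec _ _ _ y).union (isOpen_iUnion fun m =>
    isOpen_iUnion fun f => isOpen_iUnion fun f' => open_Same E dec _ _ e m f f')

theorem dense_Gj (E : Oracle) (dec : List Bool → Quest F) (e : ℕ) (j : Alg × List Bool × ℕ) :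
    Dense (Gj (F := F) E dec e j) := by
  rw [dense_iff_inter_open]
  rintro U hU ⟨x₀, hx₀⟩
  obtain ⟨I, J, hIJ⟩ := basis hU hx₀
  obtain ⟨x, h1, h2, h3⟩ := one E dec e j.1 j.2.1 j.2.2 x₀ (max (I.sup List.length)
    (J.sup Prod.snd))
  refine ⟨x, hIJ x (fun u hu => ?_) (fun p hp => ?_), h3⟩
  · exact h1 u ((Finset.le_sup (f := List.length) hu).trans (le_max_left _ _))
  · exact h2 p.1 p.2 ((Finset.le_sup (f := Prod.snd) hp).trans (le_max_right _ _))

theorem main (E : Oracle) (dec : List Bool → Quest F) : ∀ᶠ x in residual (Pair F), ∀ e : ℕ,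
    ¬ Comp (x.full E dec) (kHaltS e (join x.A E)) := by
  have hcn := CC.poly_countable
  have h1 : ∀ᶠ x in residual (Pair F), ∀ e : ℕ, ∀ j : Alg × List Bool × ℕ, x ∈ Gj E dec e j :=
    eventually_countable_forall.2 fun e => eventually_countable_forall.2 fun j =>
      residual_of_dense_open (open_Gj E dec e j) (dense_Gj E dec e j)
  filter_upwards [h1] with x hA e
  rintro ⟨π, h, R, L, ⟨N, hN⟩, hP⟩
  rcases hA e (N, π (pe N + 1 + 1), h (pe N + 1 + 1)) with ⟨y, hy⟩ | ⟨m, f, f', ⟨ρ, h1, h2⟩, h3, h4⟩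
  · exact hy _ (hN _) (hP y (pe N + 1 + 1)).1
  · simp only [hN, Option.some.injEq] at h1 h2
    have h5 := (hP (Xq (rF e m (pe N + 1) f)) (pe N + 1 + 1)).2
    have h6 := (hP (Xq (rF e m (pe N + 1) f')) (pe N + 1 + 1)).2
    rw [kHaltS_iff (join x.A E) (by omega) (rF e m (pe N + 1) f), h1] at h5
    rw [kHaltS_iff (join x.A E) (by omega) (rF e m (pe N + 1) f'), h2] at h6
    exact h4 (h6.2 (h5.1 h3))

theorem isClosed_ext : IsClosed {x : Oracle × Fam F | IsExt x.1 x.2} := by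
  let _ : ∀ (i : ι) (m : ℕ), TopologicalSpace (MvPolynomial (Fin m) (F i)) := fun _ _ => ⊥
  have _ : ∀ (i : ι) (m : ℕ), DiscreteTopology (MvPolynomial (Fin m) (F i)) :=
    fun _ _ => ⟨rfl⟩
  have h1 : {x : Oracle × Fam F | IsExt x.1 x.2} = ⋂ i : ι, ⋂ m : ℕ,
      ({x : Oracle × Fam F | ∀ j, degreeOf j (x.2 (i, m)) ≤ 2} ∩ ⋂ b : Fin m → Bool,
        {x : Oracle × Fam F | eval (pt (F i) b) (x.2 (i, m)) =
          bt (F i) (x.1 (List.ofFn b))}) := by
    ext x
    simp only [Set.mem_ofPred_eq, Set.mem_iInter, Set.mem_inter_iff]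
    rfl
  rw [h1]
  have hc2 : ∀ i m, Continuous fun x : Oracle × Fam F => x.2 (i, m) := fun i m =>
    (continuous_apply (i, m)).comp continuous_snd
  refine isClosed_iInter fun i => isClosed_iInter fun m => IsClosed.inter ?_
    (isClosed_iInter fun b => ?_)
  · exact (isClosed_discrete {p : MvPolynomial (Fin m) (F i) | ∀ j, degreeOf j p ≤ 2}).preimage
      (hc2 i m)
  · have hc : Continuous fun x : Oracle × Fam F => (x.2 (i, m), x.1 (List.ofFn b)) :=
      (hc2 i m).prodMk ((continuous_apply (List.ofFn b)).comp continuous_fst)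
    exact (isClosed_discrete {p : MvPolynomial (Fin m) (F i) × Bool |
      eval (pt (F i) b) p.1 = bt (F i) p.2}).preimage hc

theorem baire [Countable ι] : BaireSpace (Pair F) := by
  let _ : ∀ (i : ι) (m : ℕ), TopologicalSpace (MvPolynomial (Fin m) (F i)) := fun _ _ => ⊥
  have _ : ∀ (i : ι) (m : ℕ), DiscreteTopology (MvPolynomial (Fin m) (F i)) :=
    fun _ _ => ⟨rfl⟩
  have _ : TopologicalSpace.IsCompletelyMetrizableSpace (Fam F) :=
    inferInstanceAs (TopologicalSpace.IsCompletelyMetrizableSpace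
      ((p : ι × ℕ) → MvPolynomial (Fin p.2) (F p.1)))
  have _ : TopologicalSpace.IsCompletelyMetrizableSpace (Pair F) :=
    (isClosed_ext (F := F)).isCompletelyMetrizableSpace
  infer_instance

theorem nonempty : Nonempty (Pair F) := by
  refine ⟨⟨(fun _ => false, fun _ => 0), fun i m => ⟨fun j => ?_, fun b => ?_⟩⟩⟩
  · rw [degreeOf_zero]
    omega
  · rw [map_zero]
    unfold bt
    simp

end Pool.Agent.K6.H61.ALG
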