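import Pool.Agent.K6.H61.ALG.Defs
import Mathlib.Data.Finset.Card

/-! Few questions to an extension fix only few values of the oracle -/

set_option autoImplicit false

namespace Pool.Agent.K6.H61.ALG

open MvPolynomial Finset Pool.Agent.H620R2.Gauge Pool.Agent.TH678.GC

variable {ι : Type} {F : ι → Type} [∀ i, Field (F i)]

open Classical in
theorem points (dec : List Bool → Quest F) (QQ : Finset (List Bool)) (i : ι) (m : ℕ) :
    ∃ S : Finset (Fin m → F i),
      S.card ≤ (QQ.filter fun q => ((dec q).i, (dec q).m) = (i, m)).card ∧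
      ∀ q ∈ QQ, ∀ v T, dec q = ⟨i, m, v, T⟩ → v ∈ S := by
  induction QQ using Finset.induction_on with
  | empty => exact ⟨∅, by simp, by simp⟩
  | insert q QQ hq ih =>
    obtain ⟨S, hS1, hS2⟩ := ih
    by_cases h : ∃ v T, dec q = ⟨i, m, v, T⟩
    · obtain ⟨v, T, h⟩ := h
      refine ⟨insert v S, ?_, ?_⟩
      · rw [Finset.filter_insert, if_pos (by rw [h]), Finset.card_insert_of_notMem
          (fun h1 => hq (Finset.mem_filter.1 h1).1)]
        exact (Finset.card_insert_le _ _).trans (Nat.succ_le_succ hS1)
      · intro q' hq' v' T' h'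
        rcases Finset.mem_insert.1 hq' with h1 | h1
        · subst h1
          rw [h] at h'
          injection h' with h2 h3 h4 h5
          rw [← h4]
          exact Finset.mem_insert_self _ _
        · exact Finset.mem_insert_of_mem (hS2 q' h1 v' T' h')
    · refine ⟨S, hS1.trans (Finset.card_le_card
        (Finset.filter_subset_filter _ (Finset.subset_insert _ _))), ?_⟩
      intro q' hq' v' T' h'
      rcases Finset.mem_insert.1 hq' with h1 | h1
      · subst h1
        exact absurd ⟨v', T', h'⟩ h
      · exact hS2 q' h1 v' T' h'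

/-- After finitely many questions to an extension of `A`, all values of `A` outside a set `U` with at
most as many elements can be changed arbitrarily without changing the answers. -/
theorem hide (dec : List Bool → Quest F) (QQ : Finset (List Bool)) (A : Oracle) (P : Fam F)
    (hAP : IsExt A P) : ∃ (U : Finset (List Bool)) (G : Oracle → Fam F), U.card ≤ QQ.card ∧
      (∀ i m B, (∀ u : List Bool, u.length = m → B u = A u) → G B (i, m) = P (i, m)) ∧
      (∀ i m B B', (∀ u : List Bool, u.length = m → B u = B' u) → G B (i, m) = G B' (i, m)) ∧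
      (∀ i m B, (∀ u ∈ U, u.length = m → B u = A u) → (∀ j, (G B (i, m)).degreeOf j ≤ 2) ∧
        ∀ b : Fin m → Bool, eval (pt (F i) b) (G B (i, m)) = bt (F i) (B (List.ofFn b))) ∧
      ∀ q ∈ QQ, ∀ B, ora dec (G B) q = ora dec P q := by
  classical
  choose S hS1 hS2 using points dec QQ
  choose W R hW hR0 hR using fun i m => exists_corr (S i m)
  set J : Finset (ι × ℕ) := QQ.image fun q => ((dec q).i, (dec q).m) with hJ
  set U : Finset (List Bool) := J.biUnion fun p => (W p.1 p.2).image List.ofFn with hU
  have hle : ∀ b b' : Bool, ∀ i : ι, bt (F i) b + (bt (F i) b' - bt (F i) b) = bt (F i) b' :=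
    fun b b' i => by ring
  refine ⟨U, fun B p => P p + R p.1 p.2 fun b => bt (F p.1) (B (List.ofFn b)) -
    bt (F p.1) (A (List.ofFn b)), ?_, ?_, ?_, ?_, ?_⟩
  · refine Finset.card_biUnion_le.trans ?_
    rw [Finset.card_eq_sum_card_image (fun q => ((dec q).i, (dec q).m)) QQ]
    refine Finset.sum_le_sum fun p _ => Finset.card_image_le.trans ?_
    exact (hW p.1 p.2).trans (hS1 p.1 p.2)
  · intro i m B hB
    have h1 : (fun b : Fin m → Bool => bt (F i) (B (List.ofFn b)) -
        bt (F i) (A (List.ofFn b))) = 0 := by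
      funext b
      rw [hB _ (List.length_ofFn), sub_self]
      rfl
    show P (i, m) + R i m (fun b : Fin m → Bool => bt (F i) (B (List.ofFn b)) -
        bt (F i) (A (List.ofFn b))) = P (i, m)
    rw [h1, hR0, add_zero]
  · intro i m B B' hB
    have h1 : (fun b : Fin m → Bool => bt (F i) (B (List.ofFn b)) -
        bt (F i) (A (List.ofFn b))) = fun b : Fin m → Bool => bt (F i) (B' (List.ofFn b)) -
        bt (F i) (A (List.ofFn b)) := by
      funext b
      rw [hB _ (List.length_ofFn)]
    show P (i, m) + R i m (fun b : Fin m → Bool => bt (F i) (B (List.ofFn b)) -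
        bt (F i) (A (List.ofFn b))) = P (i, m) + R i m (fun b : Fin m → Bool =>
          bt (F i) (B' (List.ofFn b)) - bt (F i) (A (List.ofFn b)))
    rw [h1]
  · intro i m B hB
    obtain ⟨h1, _, h3⟩ := hR i m (fun b : Fin m → Bool => bt (F i) (B (List.ofFn b)) -
        bt (F i) (A (List.ofFn b)))
    refine ⟨fun j => (degreeOf_add_le j _ _).trans (max_le ((hAP i m).1 j) (h1 j)), fun b => ?_⟩
    show eval (pt (F i) b) (P (i, m) + R i m _) = _
    rw [map_add, (hAP i m).2 b, h3 (fun c hc => ?_) b]
    · exact hle _ _ i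
    · have hJ' : (i, m) ∈ J := by
        by_contra hcon
        have h4 : (QQ.filter fun q => ((dec q).i, (dec q).m) = (i, m)) = ∅ := by
          rw [Finset.filter_eq_empty_iff]
          intro q hq h5
          exact hcon (Finset.mem_image.2 ⟨q, hq, h5⟩)
        have h5 := (hW i m).trans (hS1 i m)
        rw [h4, Finset.card_empty, Nat.le_zero, Finset.card_eq_zero] at h5
        rw [h5] at hc
        exact absurd hc (Finset.notMem_empty _)
      have h6 : List.ofFn c ∈ U :=
        Finset.mem_biUnion.2 ⟨(i, m), hJ', Finset.mem_image.2 ⟨c, hc, rfl⟩⟩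
      rw [hB _ h6 List.length_ofFn, sub_self]
  · intro q hq B
    have h1 : (dec q).v ∈ S (dec q).i (dec q).m := hS2 _ _ q hq _ _ rfl
    have h2 := (hR (dec q).i (dec q).m (fun b => bt (F (dec q).i) (B (List.ofFn b)) -
        bt (F (dec q).i) (A (List.ofFn b)))).2.1 _ h1
    unfold ora
    have h3 : eval (dec q).v (P ((dec q).i, (dec q).m) + R (dec q).i (dec q).m (fun b =>
        bt (F (dec q).i) (B (List.ofFn b)) - bt (F (dec q).i) (A (List.ofFn b)))) =
        eval (dec q).v (P ((dec q).i, (dec q).m)) := by
      rw [map_add, h2, add_zero]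
    show decide (eval (dec q).v (P ((dec q).i, (dec q).m) + R (dec q).i (dec q).m (fun b =>
        bt (F (dec q).i) (B (List.ofFn b)) - bt (F (dec q).i) (A (List.ofFn b)))) ∈ (dec q).T) = _
    rw [h3]

end Pool.Agent.K6.H61.ALG
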