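import Pool.Agent.K6.H61.ALG.Hide
import Pool.Agent.TH678.GC.Core
import Pool.Agent.H620R2.GaugeX.X1

/-! One error -/

set_option autoImplicit false

namespace Pool.Agent.K6.H61.ALG

open MvPolynomial Pool.Agent.NPC Pool.Agent.H622R2 Pool.Agent.H620R2.Gauge
  Pool.Agent.H622R2.Exp Pool.Agent.TH678.ETH Pool.Agent.TH678.WP Pool.Agent.TH678.RW
  Pool.Agent.TH678.SQ Pool.Agent.TH678.GC
open Pool.Agent.TH678.RS (ev_poly)

theorem numbers4 (N : Alg) (s C H L : ℕ) : ∃ m : ℕ, 1 ≤ m ∧ L < m ∧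
    4 * (2 * s + 1 + C * ((m + 1) * 2 ^ m) + 2) ^ pe N < 2 ^ (m * (pe N + 1)) ∧
    ∀ n, n ≤ C * ((m + 1) * 2 ^ m) → m ≤ Nat.log 2 n →
      H * (n / (Nat.log 2 n + 1) ^ 2 + 1) + 1 < 2 ^ m := by
  have h1 := ev_poly (4 * (2 * s + 3 + C) ^ pe N) (pe N)
  obtain ⟨m, h1, h2⟩ := (h1.and (Filter.eventually_ge_atTop (L + 2 * H * C + 2 * H + 8))).exists
  have hlt : m < 2 ^ m := Nat.lt_two_pow_self
  refine ⟨m, by omega, by omega, ?_, fun n hn hlog => ?_⟩
  · have h3 : 1 ≤ (m + 1) * 2 ^ m := Nat.mul_pos (by omega) (by positivity)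
    have h4 : 2 * s + 1 + C * ((m + 1) * 2 ^ m) + 2 ≤ (2 * s + 3 + C) * ((m + 1) * 2 ^ m) := by
      have h5 : (2 * s + 3 + C) * ((m + 1) * 2 ^ m) =
          (2 * s + 3) * ((m + 1) * 2 ^ m) + C * ((m + 1) * 2 ^ m) := by ring
      have h6 : 2 * s + 3 ≤ (2 * s + 3) * ((m + 1) * 2 ^ m) := Nat.le_mul_of_pos_right _ h3
      omega
    calc 4 * (2 * s + 1 + C * ((m + 1) * 2 ^ m) + 2) ^ pe N
        ≤ 4 * ((2 * s + 3 + C) * ((m + 1) * 2 ^ m)) ^ pe N :=
          Nat.mul_le_mul_left _ (Nat.pow_le_pow_left h4 _)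
      _ = 4 * (2 * s + 3 + C) ^ pe N * (m + 1) ^ pe N * 2 ^ (m * pe N) := by
          rw [mul_pow, mul_pow, ← pow_mul]
          ring
      _ < 2 ^ m * 2 ^ (m * pe N) := Nat.mul_lt_mul_of_pos_right h1 (by positivity)
      _ = 2 ^ (m * (pe N + 1)) := by
          rw [← pow_add]
          congr 1
          ring
  · have h3 : n / (Nat.log 2 n + 1) ^ 2 ≤ C * ((m + 1) * 2 ^ m) / (m + 1) ^ 2 :=
      Nat.div_le_div hn (Nat.pow_le_pow_left (by omega) 2) (by positivity)
    have h4 : C * ((m + 1) * 2 ^ m) / (m + 1) ^ 2 = C * 2 ^ m / (m + 1) := by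
      have e1 : C * ((m + 1) * 2 ^ m) = (m + 1) * (C * 2 ^ m) := by ring
      rw [e1, pow_two]
      exact Nat.mul_div_mul_left _ _ (by omega)
    rw [h4] at h3
    have h5 : H * (C * 2 ^ m / (m + 1)) * (m + 1) ≤ H * (C * 2 ^ m) := by
      rw [mul_assoc]
      exact Nat.mul_le_mul_left _ (Nat.div_mul_le_self _ _)
    set D := H * (C * 2 ^ m / (m + 1)) with hD
    have h6 : 2 * D ≤ 2 ^ m := by
      by_contra hcon
      have h7 : 2 ^ m * (m + 1) < 2 * D * (m + 1) :=
        Nat.mul_lt_mul_of_pos_right (by omega) (by omega)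
      have h8 : 2 * D * (m + 1) ≤ 2 * (H * (C * 2 ^ m)) := by
        rw [mul_assoc]
        exact Nat.mul_le_mul_left _ h5
      have h9 : 2 * (H * (C * 2 ^ m)) = (2 * H * C) * 2 ^ m := by ring
      have h10 : (2 * H * C) * 2 ^ m ≤ (m + 1) * 2 ^ m := Nat.mul_le_mul_right _ (by omega)
      have h11 : (m + 1) * 2 ^ m = 2 ^ m * (m + 1) := by ring
      omega
    have h7 : H * (n / (Nat.log 2 n + 1) ^ 2 + 1) ≤ D + H := by
      rw [mul_add, mul_one, hD]
      exact Nat.add_le_add_right (Nat.mul_le_mul_left _ h3) _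
    have h8 : 2 * H + 8 ≤ m := by omega
    omega

/-- the first kind: no output, or a long one -/
def Long (N : Alg) (σ : List Bool) (H : ℕ) (x : List Bool) (O : Oracle) : Prop :=
  ∀ ρ, N.out O (pairBits σ x) = some ρ →
    ¬ ρ.length ≤ H * (x.length / (Nat.log 2 x.length + 1) ^ 2 + 1)

/-- the second kind: the same output for different instances -/
def Same (N : Alg) (σ : List Bool) (e m : ℕ) (f f' : Fin (2 ^ m) → Bool) (O O' : Oracle) : Prop :=
  (∃ ρ, N.out O (pairBits σ (Xq (rF e m (pe N + 1) f))) = some ρ ∧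
    N.out O (pairBits σ (Xq (rF e m (pe N + 1) f'))) = some ρ) ∧
  HitR O' (rF e m (pe N + 1) f) ∧ ¬ HitR O' (rF e m (pe N + 1) f')

variable {ι : Type} {F : ι → Type} [∀ i, Field (F i)]

open Classical in
theorem one (E : Oracle) (dec : List Bool → Quest F) (e : ℕ) (N : Alg) (σ : List Bool) (H : ℕ)
    (x₀ : Pair F) (L : ℕ) :
    ∃ x : Pair F, (∀ u : List Bool, u.length ≤ L → x.A u = x₀.A u) ∧
      (∀ i m, m ≤ L → x.P (i, m) = x₀.P (i, m)) ∧
      ((∃ y, Long N σ H y (x.full E dec)) ∨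
        ∃ m f f', Same N σ e m f f' (x.full E dec) (join x.A E)) := by
  obtain ⟨m, hm, hL, hc, hnum⟩ := numbers4 N σ.length (120 * (pe N + 1 + 1 + 2) ^ 2 * (e + 2)) H L
  set A₀ : Oracle := fun v => if v.length ≤ L then x₀.A v else false with hA₀
  have hA₀' : ∀ v : List Bool, v.length ≤ L → A₀ v = x₀.A v := fun v hv => if_pos hv
  set P₀ : Fam F := fun p => if p.2 ≤ L then x₀.P p else 0 with hP₀
  have hP₀' : ∀ i m, m ≤ L → P₀ (i, m) = x₀.P (i, m) := fun i m hm => if_pos hm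
  have hAP₀ : IsExt A₀ P₀ := by
    intro i n
    by_cases hn : n ≤ L
    · rw [hP₀' i n hn]
      refine ⟨(x₀.2 i n).1, fun b => ?_⟩
      rw [hA₀' _ (by rw [List.length_ofFn]; exact hn)]
      exact (x₀.2 i n).2 b
    · have h1 : P₀ (i, n) = 0 := if_neg hn
      rw [h1]
      refine ⟨fun j => by rw [degreeOf_zero]; omega, fun b => ?_⟩
      have h2 : A₀ (List.ofFn b) = false := if_neg (by rw [List.length_ofFn]; exact hn)
      rw [h2, map_zero]
      unfold bt
      simp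
  set O₀ : Oracle := join (join A₀ E) (ora dec P₀) with hO₀
  by_cases hbad : ∃ y, Long N σ H y O₀
  · exact ⟨⟨(A₀, P₀), hAP₀⟩, hA₀', hP₀', Or.inl hbad⟩
  unfold Long at hbad
  push Not at hbad
  choose ρ hρ1 hρ2 using hbad
  set X : (Fin (2 ^ m) → Bool) → List Bool := fun f => Xq (rF e m (pe N + 1) f) with hX
  have hXlen : ∀ f, (X f).length ≤
      120 * (pe N + 1 + 1 + 2) ^ 2 * (e + 2) * ((m + 1) * 2 ^ m) := fun f =>
    length_Xq e m (by omega) _
  have hXlog : ∀ f, m ≤ Nat.log 2 (X f).length := by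
    intro f
    apply Nat.le_log_of_pow_le (by norm_num)
    have h1 := length_lt_sz (mq (rF e m (pe N + 1) f))
    rw [length_mq] at h1
    have h2 : (X f).length = sz (mq (rF e m (pe N + 1) f)) := rfl
    have h3 : 1 * 2 ^ m ≤ (pe N + 1 + 1) * 2 ^ m := Nat.mul_le_mul_right _ (by omega)
    omega
  obtain ⟨V, hV1, hV2⟩ := exists_short (2 ^ m - 2)
  have hm2 : 2 ≤ 2 ^ m := by
    calc 2 = 2 ^ 1 := by norm_num
      _ ≤ 2 ^ m := Nat.pow_le_pow_right (by norm_num) hm
  have hcard : V.card < (Finset.univ : Finset (Fin (2 ^ m) → Bool)).card := by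
    rw [Finset.card_univ, Fintype.card_fun, Fintype.card_bool, Fintype.card_fin]
    exact lt_of_le_of_lt hV1 (Nat.pow_lt_pow_right (by norm_num) (by omega))
  obtain ⟨f, _, f', _, hff, hρ⟩ := Finset.exists_ne_map_eq_of_card_lt_of_maps_to hcard
    (f := fun f => ρ (X f)) (fun f _ => by
      refine hV2 _ ?_
      show (ρ (X f)).length ≤ 2 ^ m - 2
      have h1 := hρ2 (X f)
      have h2 := hnum _ (hXlen f) (hXlog f)
      omega)
  obtain ⟨i₀, hi₀⟩ := Function.ne_iff.1 hff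
  obtain ⟨qb, hqb⟩ := N.out_local
  obtain ⟨Q, hQ1, _, hQ3⟩ := hqb O₀ (pairBits σ (X f))
  obtain ⟨Q', hQ1', _, hQ3'⟩ := hqb O₀ (pairBits σ (X f'))
  obtain ⟨U, G, hU, hG1, _, hG3, hG4⟩ := hide dec ((Q ∪ Q').image List.tail) A₀ P₀ hAP₀
  have hS : ((Q ∪ Q').image (List.tail ∘ List.tail) ∪ U).card < 2 ^ (m * (pe N + 1)) := by
    have h0 : (Q ∪ Q').card ≤ 2 * (2 * σ.length + 1 + 120 * (pe N + 1 + 1 + 2) ^ 2 * (e + 2) *
        ((m + 1) * 2 ^ m) + 2) ^ pe N := by
      have key : ∀ g, N.p.eval (pairBits σ (X g)).length ≤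
          (2 * σ.length + 1 + 120 * (pe N + 1 + 1 + 2) ^ 2 * (e + 2) * ((m + 1) * 2 ^ m) + 2) ^
            pe N := by
        intro g
        refine (pe_spec N _).trans (Nat.pow_le_pow_left ?_ _)
        rw [length_pairBits]
        have := hXlen g
        omega
      have h1 := hQ1.trans (key f)
      have h2 := hQ1'.trans (key f')
      have h3 := Finset.card_union_le Q Q'
      omega
    have h1 : ((Q ∪ Q').image (List.tail ∘ List.tail)).card ≤ (Q ∪ Q').card :=
      Finset.card_image_le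
    have h2 : U.card ≤ (Q ∪ Q').card := hU.trans Finset.card_image_le
    have h3 := Finset.card_union_le ((Q ∪ Q').image (List.tail ∘ List.tail)) U
    omega
  obtain ⟨τ, hτ, hz⟩ := exists_tuple (e := e) hm f i₀ hS
  set z := cat (zr (rF e m (pe N + 1) f) τ) with hzdef
  rw [Finset.mem_union, not_or] at hz
  have hzl : L < z.length := by
    rw [hzdef, length_cat]
    have e1 : (pe N + 1 + 1) * ((e + 2) * m) = (pe N + 1) * ((e + 2) * m) + e * m + m + m := by
      ring
    omega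
  set A : Oracle := Function.update A₀ z true with hA
  have hAz : A z = true := by rw [hA, Function.update_self]
  have hAo : ∀ v, v ≠ z → A v = A₀ v := fun v hv => by rw [hA, Function.update_of_ne hv]
  have hext : IsExt A (G A) := fun i n => hG3 i n A fun u hu _ =>
    hAo u fun h => hz.2 (h ▸ hu)
  set O : Oracle := join (join A E) (ora dec (G A)) with hO
  have hloc : ∀ q ∈ Q ∪ Q', O q = O₀ q := by
    intro q hq
    rcases q with _ | ⟨c, q⟩
    · rfl
    cases c with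
    | true => exact hG4 q (Finset.mem_image.2 ⟨_, hq, rfl⟩) A
    | false =>
      rcases q with _ | ⟨c, q⟩
      · rfl
      cases c with
      | true => rfl
      | false =>
        refine hAo q ?_
        rintro rfl
        exact hz.1 (Finset.mem_image.2 ⟨_, hq, rfl⟩)
  refine ⟨⟨(A, G A), hext⟩, fun u hu => ?_, fun i n hn => ?_,
    Or.inr ⟨m, f, f', ⟨ρ (X f), ?_, ?_⟩, ⟨τ, hAz⟩, ?_⟩⟩
  · show A u = _
    rw [hAo u (by rintro rfl; omega), hA₀' u hu]
  · show G A (i, n) = _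
    rw [hG1 i n A fun u hu => hAo u (by rintro rfl; omega), hP₀' i n hn]
  · have h1 := hQ3 O fun q hq => hloc q (Finset.mem_union_left _ hq)
    exact h1.trans (hρ1 (X f))
  · have h1 := hQ3' O fun q hq => hloc q (Finset.mem_union_right _ hq)
    have h2 : ρ (X f) = ρ (X f') := hρ
    rw [h2]
    exact h1.trans (hρ1 (X f'))
  · rintro ⟨ι', hι'⟩
    have h1 : A (cat (zr (rF e m (pe N + 1) f') ι')) = true := hι'
    by_cases h2 : cat (zr (rF e m (pe N + 1) f') ι') = z
    · have h3 := congrFun (cat_inj h2) 0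
      have h4 : en e m (ι' 0) (f' (ι' 0)) = en e m (τ 0) (f (τ 0)) := h3
      obtain ⟨h5, h6⟩ := en_inj hm h4
      rw [h5, hτ] at h6
      exact hi₀ h6.symm
    · rw [hAo _ h2] at h1
      have h3 : ¬ (cat (zr (rF e m (pe N + 1) f') ι')).length ≤ L := by
        have h4 : (cat (zr (rF e m (pe N + 1) f') ι')).length = z.length := by
          rw [hzdef, length_cat, length_cat]
        omega
      have h4 : A₀ (cat (zr (rF e m (pe N + 1) f') ι')) = false := if_neg h3
      rw [h4] at h1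
      exact Bool.false_ne_true h1

end Pool.Agent.K6.H61.ALG
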